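import Pool.Agent.helper33.SP.SpecC1

/-!
# Project sp, module UI8: quasi-multiplicativity in terms of `a4`
-/

namespace TP

open DP MeasureTheory

theorem UI8_a4 (hQZ : QZ_stmt) (a b : ℕ) : a4 a b = qa (fun _ => 0) 4 0 (2 ^ a) (2 ^ b) := by
  rw [← hQZ 4 0 (2 ^ a) (2 ^ b)]
  unfold a4 ar
  simp

theorem UI8 (hQZ : QZ_stmt) (hQMX : QMX_stmt) (hEXR : EXR_stmt) : UI8_stmt := by
  obtain ⟨C1, hC1, i1, h1⟩ := hQMX
  obtain ⟨C2, hC2, i2, h2⟩ := hEXR
  have hP : Profile (fun _ : V => (0 : ℝ)) := fun v => ⟨le_rfl, zero_le_one⟩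
  have hE : Even (((0 : V).1 + (0 : V).2)) := by simp
  have e := UI8_a4 hQZ
  have hpos : ∀ a b, i2 ≤ a → a < b → 0 < a4 a b := by
    intro a b ha hab
    rw [e]
    exact (h2 4 _ 0 a b 0 (Or.inr rfl) hP hE ha hab).2.2
  refine ⟨max C1 C2, max i1 i2, le_max_of_le_left hC1, ?_, ?_, ?_, ?_, ?_⟩
  · intro a b d ha hab hbd
    have h := (h1 4 _ 0 a b 0 d (Or.inr rfl) hP hE (le_of_max_le_left ha) hab (by omega)).1
    simp only [add_zero, zero_add, pow_one] at h
    rw [← e, ← e, ← e] at h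
    refine h.trans (mul_le_mul_of_nonneg_right (le_max_left _ _) ?_)
    exact (hpos a d (le_of_max_le_right ha) (by omega)).le
  · intro a b d ha hab hbd
    have h := (h1 4 _ 0 a b 0 d (Or.inr rfl) hP hE (le_of_max_le_left ha) hab (by omega)).2 hbd
    rw [← e, ← e, ← e] at h
    refine h.trans (mul_le_mul_of_nonneg_right (le_max_left _ _) ?_)
    exact mul_nonneg (hpos a b (le_of_max_le_right ha) hab).le
      (hpos b d (by have := le_of_max_le_right ha; omega) hbd).le
  · intro a b r ha hab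
    have h := (h2 4 _ 0 a b r (Or.inr rfl) hP hE (le_of_max_le_right ha) hab).2.1
    rw [← e, ← e] at h
    refine h.trans (mul_le_mul_of_nonneg_right ?_ ?_)
    · exact pow_le_pow_left₀ (by linarith) (le_max_right _ _) r
    · exact (hpos a (b + r) (le_of_max_le_right ha) (by omega)).le
  · intro a b r ha hab
    have h := (h2 4 _ 0 a b r (Or.inr rfl) hP hE (le_of_max_le_right ha) hab).1
    rw [← e, ← e] at h
    refine h.trans (mul_le_mul_of_nonneg_right ?_ ?_)
    · exact pow_le_pow_left₀ (by linarith) (le_max_right _ _) r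
    · exact (hpos a (b + r) (le_of_max_le_right ha) (by omega)).le
  · intro a b ha hab
    exact hpos a b (le_of_max_le_right ha) hab

end TP
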