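import Pool.Agent.helper3.SP.SpecPP

namespace TP

open DP MeasureTheory

theorem PP1_mono {W A B : Set V} {c c' : V → Bool} (h : ∀ v, c v = true → c' v = true)
    (hc : Hcn W A B c) : Hcn W A B c' := by
  obtain ⟨u, hu, v, hv, hh⟩ := hc
  exact ⟨u, hu, v, hv, Conn.colour_mono (fun v _ => h v) hh⟩

theorem PP1 (h11 : UJ11_stmt) (h12 : UJ12_stmt) : PP1_stmt := by
  intro c x y v m₁ n₁ m₂ n₂ r R t W A B h1 h2 h3 h4 h5 h6 hv hW hA hB hY hc hcv
  obtain ⟨g1, g2, hw, z, hz0, hz1, hz2⟩ := hY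
  have hsd : ∀ a b : V, br a = br b → sd x a ≤ sd x b + 1 := by
    intro a b hab
    have e1 := br_eq_sd hab
    unfold sd at *
    omega
  have ne : ∀ w : V, m₁ ≤ sd x w → br w ≠ br v := by
    intro w hw1 hw2
    have := hsd w v hw2
    omega
  refine ⟨⟨z, hz0, hz1, ?_⟩, ?_⟩
  · intro hH
    apply hcv
    have h7 : Hcn W A B (rc (rc c z false) v false) := by
      obtain ⟨s, hs, s', hs', hss⟩ := hH
      refine ⟨s, hs, s', hs', ?_⟩
      refine (h11 (rc c z false) (rc (rc c z false) v false) W x s s' m₁ n₂ (by omega) (by omega)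
        hz2 ?_ hW (hA s hs) (hB s' hs')).mp hss
      intro w hw1
      simp only [rc, if_neg (ne w hw1)]
    refine PP1_mono ?_ h7
    intro w hw1
    simp only [rc] at hw1 ⊢
    split_ifs at hw1 ⊢ <;> simp_all
  · intro w hw0 hw1
    have h8 : four c x m₁ n₂ := by
      by_contra h9
      apply hcv
      obtain ⟨s, hs, s', hs', hss⟩ := hc
      refine ⟨s, hs, s', hs', ?_⟩
      refine (h11 c (rc c v false) W x s s' m₁ n₂ (by omega) (by omega)
        h9 ?_ hW (hA s hs) (hB s' hs')).mp hss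
      intro w hw1
      simp only [rc, if_neg (ne w hw1)]
    obtain ⟨s, hs, s', hs', hss⟩ := hc
    refine ⟨s, hs, s', hs', ?_⟩
    refine (h12 c (rc c w false) W x s s' m₁ n₁ m₂ n₂ (by omega) h2 h4 h6 g1 g2 h8
      (hw w hw0 hw1) ?_ hW (hA s hs) (hB s' hs')).mp hss
    intro u hu
    obtain ⟨a1, a2, a3⟩ := hw1
    have hne : br u ≠ br w := by
      intro hb
      have e1 := hsd u w hb
      have e2 := hsd w u hb.symm
      omega
    simp only [rc, if_neg hne]

end TP
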