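import Pool.Agent.helper3.SP.SpecPP

namespace TP

open DP MeasureTheory

theorem PP2_flip (c : V → Bool) (R : Set V) (u v : V) :
    Conn (fl c) true R u v ↔ Conn c false R u v := by
  have : {w | w ∈ R ∧ fl c w = true} = {w | w ∈ R ∧ c w = false} := by
    ext w
    simp [fl]
  unfold Conn
  rw [this]

theorem PP2_hc (i : ℕ) (b : V → Bool) :
    b ∈ Fc i ↔ Hcn (rect 1 (2 * 2 ^ i) 0 (hh (2 ^ i))) {u | u.1 = 1} {u | u.1 = 2 * 2 ^ i}
      (col b) := by
  constructor
  · rintro ⟨u, v, h1, h2, h3⟩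
    exact ⟨u, h1, v, h2, h3⟩
  · rintro ⟨u, h1, v, h2, h3⟩
    exact ⟨u, v, h1, h2, h3⟩

theorem PP2_vc (hHX : DP.HX_stmt) (hRC : DP.RC_stmt) (i : ℕ) (b : V → Bool) :
    b ∉ Fc i ↔ Hcn (rect 1 (2 * 2 ^ i) 0 (hh (2 ^ i))) {u | u.2 = 0} {u | u.2 = hh (2 ^ i)}
      (fl (col b)) := by
  constructor
  · intro hb
    have h1 : (1 : ℤ) ≤ 2 * 2 ^ i := by
      have : (1 : ℤ) ≤ 2 ^ i := one_le_pow₀ (by norm_num)
      linarith
    rcases hHX (col b) true 1 (2 * 2 ^ i) 0 (hh (2 ^ i)) h1 (by positivity) with h | h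
    · exact absurd h hb
    · obtain ⟨u, v, hu, hv, huv⟩ := h
      exact ⟨u, hu, v, hv, (PP2_flip _ _ _ _).mpr huv⟩
  · rintro ⟨u, hu, v, hv, huv⟩ ⟨u', v', hu', hv', huv'⟩
    rw [PP2_flip] at huv
    obtain ⟨w, hw1, hw2⟩ := hRC 1 (2 * 2 ^ i) 0 (hh (2 ^ i))
      {w | w ∈ rect 1 (2 * 2 ^ i) 0 (hh (2 ^ i)) ∧ col b w = true}
      {w | w ∈ rect 1 (2 * 2 ^ i) 0 (hh (2 ^ i)) ∧ col b w = false}
      (fun w hw => hw.1) (fun w hw => hw.1) u' v' u v hu' hv' hu hv huv' huv
    have e1 := hw1.2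
    have e2 := hw2.2
    rw [e1] at e2
    exact absurd e2 (by decide)

theorem PP2_mon (i : ℕ) {b b' : V → Bool} (h : ∀ v, b v = true → b' v = true) (hb : b ∈ Fc i) :
    b' ∈ Fc i := by
  obtain ⟨u, v, h1, h2, h3⟩ := hb
  exact ⟨u, v, h1, h2, Conn.colour_mono (fun v _ hv => h _ hv) h3⟩

theorem PP2_col (b : V → Bool) (v : V) (hv : (v.1 + v.2) % 2 = 0) (k : Bool) :
    rc (col b) v k = col (Function.update b v k) := by
  ext w
  have h1 : br v = v := br_of_even hv
  simp only [rc, col, Function.update_apply, h1]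

theorem PP2_piv (i : ℕ) (b : V → Bool) (v : V) (hv : v ∈ VV i) :
    v ∈ PV i b ↔ Function.update b v true ∈ Fc i ∧ Function.update b v false ∉ Fc i := by
  constructor
  · rintro ⟨-, b', b'', h1, h2, h3⟩
    constructor
    · refine PP2_mon i ?_ h2
      intro w hw
      by_cases hwv : w = v
      · simp [hwv]
      · rw [Function.update_of_ne hwv, ← (h1 w (by simpa using hwv)).1]
        exact hw
    · intro h4
      apply h3
      refine PP2_mon i ?_ h4
      intro w hw
      by_cases hwv : w = v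
      · simp [hwv] at hw
      · rw [Function.update_of_ne hwv] at hw
        rw [(h1 w (by simpa using hwv)).2]
        exact hw
  · rintro ⟨h1, h2⟩
    refine ⟨hv, _, _, ?_, h1, h2⟩
    intro w hw
    have hw' : w ≠ v := by simpa using hw
    simp [Function.update_of_ne hw']

theorem PP2 (hHX : DP.HX_stmt) (hRC : DP.RC_stmt) : PP2_stmt := by
  intro i b v hv
  have hv0 : (v.1 + v.2) % 2 = 0 := (Finset.mem_filter.mp hv).2
  refine ⟨PP2_hc i b, PP2_vc hHX hRC i b, ?_, ?_⟩
  · intro hb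
    rw [PP2_piv i b v hv, PP2_col b v hv0 false, ← PP2_hc]
    constructor
    · exact fun h => h.2
    · intro h
      refine ⟨PP2_mon i ?_ hb, h⟩
      intro w hw
      by_cases hwv : w = v
      · simp [hwv]
      · rw [Function.update_of_ne hwv]; exact hw
  · intro hb
    have e : rc (fl (col b)) v false = fl (col (Function.update b v true)) := by
      rw [← PP2_col b v hv0 true]
      ext w
      simp only [rc, fl]
      split_ifs <;> simp
    rw [PP2_piv i b v hv, e, ← PP2_vc hHX hRC, not_not]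
    constructor
    · exact fun h => h.1
    · intro h
      refine ⟨h, fun h' => hb (PP2_mon i ?_ h')⟩
      intro w hw
      by_cases hwv : w = v
      · simp [hwv] at hw
      · rw [Function.update_of_ne hwv] at hw; exact hw

end TP
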