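import Pool.Agent.helper31.SP.SpecTL
import Pool.Agent.helper2.DP.BSTAB

/-!
# Project sp, module TL2: telescoping upper bound
-/

namespace TP

open DP MeasureTheory

/-- The derivative is dominated by pivotality in both configurations. -/
theorem TL2_bf_le {Λ : Finset V} {F : Set (V → Bool)} (h : DP.Dep F (Λ : Set V)) (ρ : V → ℝ)
    (v : V) : bf ρ (dv v (ind F)) (dv v (ind F)) ≤ Q ρ (Piv {v} F) (Piv {v} F) := by
  classical
  have hd := BSTAB_dep h v
  have h1 : LF Λ (dv v (ind F)) := (h.lf.dv' v).mono (Finset.erase_subset _ _)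
  rw [Q_eq ρ hd hd]
  unfold bf
  refine ex2_mono ρ (lf_pair h1 h1) (lf_pair hd.lf hd.lf) fun w => ?_
  have e1 := BSTAB_abs_le F v (fun u => (w u).1)
  have e2 := BSTAB_abs_le F v (fun u => (w u).2)
  calc dv v (ind F) (fun u => (w u).1) * dv v (ind F) (fun u => (w u).2)
      ≤ |dv v (ind F) (fun u => (w u).1) * dv v (ind F) (fun u => (w u).2)| := le_abs_self _
    _ = |dv v (ind F) (fun u => (w u).1)| * |dv v (ind F) (fun u => (w u).2)| := abs_mul _ _
    _ ≤ ind (Piv {v} F) (fun u => (w u).1) * ind (Piv {v} F) (fun u => (w u).2) :=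
        mul_le_mul e1 e2 (abs_nonneg _) (ind_nonneg _ _)

theorem TL2 (hanti : DP.Banti_stmt) : TL2_stmt := by
  classical
  intro Λ F ρ ρ' hd hρ hρ' hle
  have hlf := hd.lf
  have key : ∀ S : Finset V, S ⊆ Λ →
      bf ρ (ind F) (ind F) - bf (fun u => if u ∈ S then ρ' u else ρ u) (ind F) (ind F) ≤
        1 / 4 * ∑ v ∈ S, (ρ' v - ρ v) * Q ρ (Piv {v} F) (Piv {v} F) := by
    intro S
    induction S using Finset.induction_on with
    | empty => intro _; simp
    | insert v S hv ih =>
      intro hS
      have ih' := ih (fun u hu => hS (Finset.mem_insert_of_mem hu))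
      have hvΛ : v ∈ Λ := hS (Finset.mem_insert_self v S)
      rw [Finset.sum_insert hv, mul_add]
      set σ : V → ℝ := fun u => if u ∈ S then ρ' u else ρ u with hσ
      have hprof : Profile σ := by
        intro u
        simp only [hσ]
        split_ifs
        · exact hρ' u
        · exact hρ u
      have hup : (fun u => if u ∈ insert v S then ρ' u else ρ u) = Function.update σ v (ρ' v) := by
        funext u
        by_cases hu : u = v
        · subst hu; simp
        · rw [Function.update_of_ne hu]
          simp [hσ, hu]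
      have hdiff := bf_diff σ hlf hlf v (ρ' v)
      have hσv : σ v = ρ v := by simp [hσ, hv]
      rw [hσv, clip_of_mem (hρ' v).1 (hρ' v).2, clip_of_mem (hρ v).1 (hρ v).2] at hdiff
      have hpd := BSTAB_dep hd v
      have hQ := hanti ρ σ (Piv {v} F) (Λ : Set V) hρ hprof ⟨Λ, subset_rfl, hpd⟩
        (by
          intro u hu
          simp only [hσ]
          split_ifs
          · exact hle u hu
          · exact le_rfl)
      have hbf := TL2_bf_le hd σ v
      rw [hup]
      have h0 : 0 ≤ ρ' v - ρ v := sub_nonneg.2 (hle v hvΛ)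
      nlinarith [mul_le_mul_of_nonneg_left (hbf.trans hQ) h0]
  have h1 := key Λ subset_rfl
  have h2 : bf (fun u => if u ∈ Λ then ρ' u else ρ u) (ind F) (ind F) = Q ρ' F F := by
    rw [Q_eq _ hd hd]
    exact bf_congr hlf hlf fun v hv => by simp [hv]
  have h3 : bf ρ (ind F) (ind F) = Q ρ F F := (Q_eq _ hd hd).symm
  rw [h2, h3] at h1
  exact h1

end TP
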